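import Pool.Agent.Helper83.QM.Defs

/-!
# QM, Q3: elimination for several quadrics from the elimination for one
-/

set_option autoImplicit false

namespace Pool.Agent.Helper45.QM

open Matrix Pool.Agent.Helper49.QU Pool.Agent.Helper83.QM MvPolynomial

/-- the statement of Q2 (`Pool.Agent.Helper83.QM.Fr.elim`) -/
def ElimStmt : Prop :=
  ∀ {H : Type} [CommRing H] {N : ℕ} (B : Matrix (Fin N) (Fin N) H), B.IsSymm →
    ∀ (c0 : Fin N → H) (c : MvPolynomial (Fin N) H) {Ω : Type} [Field Ω] (h : H →+* Ω),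
    h (bil B c0 c0) ≠ 0 → ∀ u0 : Fin N → Ω, bil (B.map h) u0 u0 = 0 → eval₂ h u0 c ≠ 0 →
    ∃ g : H, h g ≠ 0 ∧ ∀ (L : Type) [Field L] [CharZero L] (χ : H →+* L), χ g ≠ 0 →
      Rk3 (B.map χ) → Iso (B.map χ) →
      ∃ u : Fin N → L, bil (B.map χ) u u = 0 ∧ eval₂ χ u c ≠ 0

theorem map_bil {R S : Type} [CommRing R] [CommRing S] {N : ℕ} (f : R →+* S)
    (B : Matrix (Fin N) (Fin N) R) (x y : Fin N → R) :
    f (bil B x y) = bil (B.map f) (f ∘ x) (f ∘ y) := by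
  simp [bil, map_sum, map_mul, Matrix.map_apply]

/-- the variables of the first quadric are split off -/
noncomputable def spl {H : Type} [CommRing H] {r : ℕ} (N : Fin (r + 1) → ℕ) :
    MvPolynomial (Σ i : Fin (r + 1), Fin (N i)) H →+*
      MvPolynomial (Fin (N 0)) (MvPolynomial (Σ i : Fin r, Fin (N i.succ)) H) :=
  eval₂Hom (C.comp C) fun p => Fin.cases
    (motive := fun i => Fin (N i) →
      MvPolynomial (Fin (N 0)) (MvPolynomial (Σ i : Fin r, Fin (N i.succ)) H))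
    (fun j => X j) (fun i j => C (X ⟨i, j⟩)) p.1 p.2

theorem eval_spl {H : Type} [CommRing H] {r : ℕ} (N : Fin (r + 1) → ℕ) {L : Type} [CommRing L]
    (χ : H →+* L) (u : (Σ i : Fin (r + 1), Fin (N i)) → L)
    (c : MvPolynomial (Σ i : Fin (r + 1), Fin (N i)) H) :
    eval₂ (eval₂Hom χ fun p : Σ i : Fin r, Fin (N i.succ) => u ⟨p.1.succ, p.2⟩)
      (fun j => u ⟨0, j⟩) (spl N c) = eval₂ χ u c := by
  have : (eval₂Hom (eval₂Hom χ fun p : Σ i : Fin r, Fin (N i.succ) => u ⟨p.1.succ, p.2⟩)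
      (fun j => u ⟨0, j⟩)).comp (spl N) = eval₂Hom χ u := by
    refine MvPolynomial.ringHom_ext (fun a => ?_) (fun p => ?_)
    · simp [spl]
    · obtain ⟨i, j⟩ := p
      refine Fin.cases (motive := fun i => ∀ j : Fin (N i),
        ((eval₂Hom (eval₂Hom χ fun p : Σ i : Fin r, Fin (N i.succ) => u ⟨p.1.succ, p.2⟩)
          (fun j => u ⟨0, j⟩)).comp (spl N)) (X ⟨i, j⟩) = (eval₂Hom χ u) (X ⟨i, j⟩))
        (fun j => ?_) (fun i j => ?_) i j
      · simp [spl]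
      · simp [spl]
  exact DFunLike.congr_fun this c

theorem elims (hE : ElimStmt) {H : Type} [CommRing H] {r : ℕ} {N : Fin r → ℕ}
    (B : ∀ i : Fin r, Matrix (Fin (N i)) (Fin (N i)) H) (hB : ∀ i, (B i).IsSymm)
    (c0 : ∀ i : Fin r, Fin (N i) → H) (c : MvPolynomial (Σ i : Fin r, Fin (N i)) H) {Ω : Type}
    [Field Ω] (h : H →+* Ω) (hc : ∀ i, h (bil (B i) (c0 i) (c0 i)) ≠ 0)
    (u0 : (Σ i : Fin r, Fin (N i)) → Ω)
    (hq : ∀ i, bil ((B i).map h) (fun j => u0 ⟨i, j⟩) (fun j => u0 ⟨i, j⟩) = 0)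
    (hcu : eval₂ h u0 c ≠ 0) :
    ∃ g : H, h g ≠ 0 ∧ ∀ (L : Type) [Field L] [CharZero L] (χ : H →+* L), χ g ≠ 0 →
      (∀ i, Rk3 ((B i).map χ)) → (∀ i, Iso ((B i).map χ)) →
      ∃ u : (Σ i : Fin r, Fin (N i)) → L,
        (∀ i, bil ((B i).map χ) (fun j => u ⟨i, j⟩) (fun j => u ⟨i, j⟩) = 0) ∧
        eval₂ χ u c ≠ 0 := by
  induction r with
  | zero =>
    haveI : IsEmpty (Σ i : Fin 0, Fin (N i)) := ⟨fun p => p.1.elim0⟩
    obtain ⟨a, rfl⟩ := C_surjective (R := H) (Σ i : Fin 0, Fin (N i)) c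
    refine ⟨a, ?_, fun L _ _ χ hg _ _ => ⟨isEmptyElim, fun i => i.elim0, ?_⟩⟩
    · simpa using hcu
    · simpa using hg
  | succ r ih =>
    set h' : MvPolynomial (Σ i : Fin r, Fin (N i.succ)) H →+* Ω :=
      eval₂Hom h fun p => u0 ⟨p.1.succ, p.2⟩ with hh'
    have hcomp : ∀ a, h' (C a) = h a := fun a => by simp [hh']
    obtain ⟨g', hg', hg2⟩ := hE ((B 0).map C) ((hB 0).map _) (fun j => C (c0 0 j)) (spl N c) h'
      (by
        have : bil ((B 0).map C) (fun j => C (c0 0 j)) (fun j => C (c0 0 j)) =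
            C (σ := Σ i : Fin r, Fin (N i.succ)) (bil (B 0) (c0 0) (c0 0)) := by
          rw [map_bil]; rfl
        rw [this, hcomp]
        exact hc 0)
      (fun j => u0 ⟨0, j⟩)
      (by
        have : ((B 0).map C).map h' = (B 0).map h := by
          ext i j
          simp [hcomp]
        rw [this]
        exact hq 0)
      (by rw [hh', eval_spl]; exact hcu)
    obtain ⟨g, hg, hg3⟩ := ih (fun i => B i.succ) (fun i => hB i.succ) (fun i => c0 i.succ) g'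
      (fun i => hc i.succ) (fun p => u0 ⟨p.1.succ, p.2⟩) (fun i => hq i.succ) hg'
    refine ⟨g, hg, fun L _ _ χ hχ hR hI => ?_⟩
    obtain ⟨u1, hu1, hu1c⟩ := hg3 L χ hχ (fun i => hR i.succ) (fun i => hI i.succ)
    have hm : ((B 0).map C).map (eval₂Hom χ u1) = (B 0).map χ := by
      ext i j
      simp
    obtain ⟨u2, hu2, hu2c⟩ := hg2 L (eval₂Hom χ u1) hu1c (by rw [hm]; exact hR 0)
      (by rw [hm]; exact hI 0)
    rw [hm] at hu2
    refine ⟨fun p => Fin.cases (motive := fun i => Fin (N i) → L) u2 (fun i j => u1 ⟨i, j⟩) p.1 p.2,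
      fun i => ?_, ?_⟩
    · refine Fin.cases ?_ (fun i => ?_) i
      · exact hu2
      · exact hu1 i
    · rw [← eval_spl]
      exact hu2c

end Pool.Agent.Helper45.QM
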